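import Mathlib

namespace Pool.Agent.Lib.MP_712a2d_co

open Finset

/-- Internal notion: a placement with integer coordinates, exactly `c` cells in each row. -/
structure Pl (n c : ℕ) (S : Finset (ℤ × ℤ)) : Prop where
  mem : ∀ x ∈ S, (0 ≤ x.1 ∧ x.1 < n) ∧ (0 ≤ x.2 ∧ x.2 < n)
  row : ∀ i : ℤ, 0 ≤ i → i < n → (S.filter (fun x => x.1 = i)).card = c
  col : ∀ j : ℤ, (S.filter (fun x => x.2 = j)).card ≤ c
  dg : ∀ k : ℤ, (S.filter (fun x => x.1 + x.2 = k)).card ≤ c
  ad : ∀ d : ℤ, (S.filter (fun x => x.1 - x.2 = d)).card ≤ c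

/-- The board. -/
noncomputable def board (n : ℕ) : Finset (ℤ × ℤ) := Ico (0:ℤ) n ×ˢ Ico (0:ℤ) n

theorem mem_board {n : ℕ} {x : ℤ × ℤ} :
    x ∈ board n ↔ (0 ≤ x.1 ∧ x.1 < n) ∧ (0 ≤ x.2 ∧ x.2 < n) := by
  simp [board, Finset.mem_product]

/-- Existence of an `(n,c)`-placement. -/
def Ex (n c : ℕ) : Prop := ∃ S : Finset (ℤ × ℤ), Pl n c S

theorem ex_zero (n : ℕ) : Ex n 0 := by
  refine ⟨∅, ?_, ?_, ?_, ?_, ?_⟩ <;> simp

theorem label (n : ℕ) (hn : 0 < n) (a : ℤ → ℤ) (C : Finset ℤ) (hC : C ⊆ Ico (0:ℤ) n)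
    (hcol : ∀ i i' : ℤ, 0 ≤ i → i < i' → i' < n → ¬ (n:ℤ) ∣ a i' - a i)
    (hdg : ∀ i i' j j' : ℤ, 0 ≤ i → i < i' → i' < n → 0 ≤ j' → j < n → i + j = i' + j' →
      (n:ℤ) ∣ (a i' - j') - (a i - j) → (a i - j) % n ∉ C)
    (had : ∀ i i' j j' : ℤ, 0 ≤ i → i < i' → i' < n → 0 ≤ j → j' < n → i - j = i' - j' →
      (n:ℤ) ∣ (a i' - j') - (a i - j) → (a i - j) % n ∉ C) :
    Pl n C.card ((board n).filter (fun x => (a x.1 - x.2) % n ∈ C)) := by
  have hn' : (0:ℤ) < n := by exact_mod_cast hn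
  have key : ∀ x y : ℤ × ℤ, (a x.1 - x.2) % n = (a y.1 - y.2) % n →
      (n:ℤ) ∣ (a y.1 - y.2) - (a x.1 - x.2) := by
    intro x y h
    exact Int.ModEq.dvd h
  refine ⟨?_, ?_, ?_, ?_, ?_⟩
  · intro x hx
    exact mem_board.1 (mem_filter.1 hx).1
  · intro i hi0 hi1
    apply Finset.card_bij' (fun x _ => (a x.1 - x.2) % n) (fun l _ => (i, (a i - l) % n))
    · intro x hx
      simp only [mem_filter] at hx
      exact hx.1.2
    · intro l hl
      have hl2 := Finset.mem_Ico.1 (hC hl)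
      simp only [mem_filter, mem_board]
      refine ⟨⟨⟨⟨hi0, hi1⟩, Int.emod_nonneg _ hn'.ne', Int.emod_lt_of_pos _ hn'⟩, ?_⟩, trivial⟩
      have : (a i - (a i - l) % n) % n = l := by
        rw [Int.sub_emod, Int.emod_emod_of_dvd _ (dvd_refl _), ← Int.sub_emod]
        rw [sub_sub_cancel]
        exact Int.emod_eq_of_lt hl2.1 hl2.2
      rw [this]; exact hl
    · intro x hx
      simp only [mem_filter, mem_board] at hx
      obtain ⟨⟨⟨h1, h2⟩, h3⟩, h4⟩ := hx
      have : (a i - (a x.1 - x.2) % n) % n = x.2 := by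
        rw [h4, Int.sub_emod, Int.emod_emod_of_dvd _ (dvd_refl _), ← Int.sub_emod]
        rw [sub_sub_cancel]
        exact Int.emod_eq_of_lt h2.1 h2.2
      ext
      · exact h4.symm
      · exact this
    · intro l hl
      have hl2 := Finset.mem_Ico.1 (hC hl)
      show (a i - (a i - l) % n) % n = l
      rw [Int.sub_emod, Int.emod_emod_of_dvd _ (dvd_refl _), ← Int.sub_emod]
      rw [sub_sub_cancel]
      exact Int.emod_eq_of_lt hl2.1 hl2.2
  · intro j
    apply Finset.card_le_card_of_injOn (fun x => (a x.1 - x.2) % n)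
    · intro x hx
      have hx' := (Finset.mem_coe.1 hx)
      simp only [mem_filter] at hx'
      exact hx'.1.2
    · intro x hx y hy hxy
      have hx' := (Finset.mem_coe.1 hx)
      have hy' := (Finset.mem_coe.1 hy)
      simp only [mem_filter, mem_board] at hx' hy'
      obtain ⟨⟨⟨x1, x2⟩, x3⟩, x4⟩ := hx'
      obtain ⟨⟨⟨y1, y2⟩, y3⟩, y4⟩ := hy'
      rcases lt_trichotomy x.1 y.1 with h | h | h
      · exfalso
        have := key x y hxy
        rw [x4, y4] at this
        apply hcol x.1 y.1 x1.1 h y1.2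
        have e : a y.1 - j - (a x.1 - j) = a y.1 - a x.1 := by ring
        rwa [e] at this
      · ext
        · exact h
        · rw [x4, y4]
      · exfalso
        have := key y x hxy.symm
        rw [x4, y4] at this
        apply hcol y.1 x.1 y1.1 h x1.2
        have e : a x.1 - j - (a y.1 - j) = a x.1 - a y.1 := by ring
        rwa [e] at this
  · intro k
    apply Finset.card_le_card_of_injOn (fun x => (a x.1 - x.2) % n)
    · intro x hx
      have hx' := (Finset.mem_coe.1 hx)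
      simp only [mem_filter] at hx'
      exact hx'.1.2
    · intro x hx y hy hxy
      have hx' := (Finset.mem_coe.1 hx)
      have hy' := (Finset.mem_coe.1 hy)
      simp only [mem_filter, mem_board] at hx' hy'
      obtain ⟨⟨⟨x1, x2⟩, x3⟩, x4⟩ := hx'
      obtain ⟨⟨⟨y1, y2⟩, y3⟩, y4⟩ := hy'
      rcases lt_trichotomy x.1 y.1 with h | h | h
      · exact absurd x3 (hdg x.1 y.1 x.2 y.2 x1.1 h y1.2 y2.1 x2.2 (by omega) (key x y hxy))
      · ext
        · exact h
        · omega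
      · exact absurd y3 (hdg y.1 x.1 y.2 x.2 y1.1 h x1.2 x2.1 y2.2 (by omega) (key y x hxy.symm))
  · intro k
    apply Finset.card_le_card_of_injOn (fun x => (a x.1 - x.2) % n)
    · intro x hx
      have hx' := (Finset.mem_coe.1 hx)
      simp only [mem_filter] at hx'
      exact hx'.1.2
    · intro x hx y hy hxy
      have hx' := (Finset.mem_coe.1 hx)
      have hy' := (Finset.mem_coe.1 hy)
      simp only [mem_filter, mem_board] at hx' hy'
      obtain ⟨⟨⟨x1, x2⟩, x3⟩, x4⟩ := hx'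
      obtain ⟨⟨⟨y1, y2⟩, y3⟩, y4⟩ := hy'
      rcases lt_trichotomy x.1 y.1 with h | h | h
      · exact absurd x3 (had x.1 y.1 x.2 y.2 x1.1 h y1.2 x2.1 y2.2 (by omega) (key x y hxy))
      · ext
        · exact h
        · omega
      · exact absurd y3 (had y.1 x.1 y.2 x.2 y1.1 h x1.2 y2.1 x2.2 (by omega) (key y x hxy.symm))

end Pool.Agent.Lib.MP_712a2d_co
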