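import Mathlib
import Pool.Agent.Lib.MP_712a2d_co.Basic

namespace Pool.Agent.Lib.MP_712a2d_co

open Finset

/-- One-dimensional form of the counting conditions. -/
structure Good (n c : ℕ) (F : ℤ → ℤ → Prop) [∀ i j, Decidable (F i j)] : Prop where
  row : ∀ i : ℤ, 0 ≤ i → i < n → ((Ico (0:ℤ) n).filter (fun j => F i j)).card = c
  col : ∀ j : ℤ, 0 ≤ j → j < n → ((Ico (0:ℤ) n).filter (fun i => F i j)).card ≤ c
  dg : ∀ k : ℤ, ((Ico (0:ℤ) n).filter (fun i => (0 ≤ k - i ∧ k - i < n) ∧ F i (k - i))).card ≤ c
  ad : ∀ d : ℤ, ((Ico (0:ℤ) n).filter (fun i => (0 ≤ i - d ∧ i - d < n) ∧ F i (i - d))).card ≤ c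

theorem Good.ex {n c : ℕ} {F : ℤ → ℤ → Prop} [∀ i j, Decidable (F i j)] (h : Good n c F) :
    Ex n c := by
  refine ⟨(board n).filter (fun x => F x.1 x.2), ?_, ?_, ?_, ?_, ?_⟩
  · intro x hx
    exact mem_board.1 (mem_filter.1 hx).1
  · intro i hi0 hi1
    rw [← h.row i hi0 hi1]
    refine Finset.card_bij' (fun x _ => x.2) (fun j _ => (i, j)) ?_ ?_ ?_ ?_
    · intro x hx
      simp only [mem_filter, mem_board, mem_Ico] at hx ⊢
      exact ⟨hx.1.1.2, hx.2 ▸ hx.1.2⟩
    · intro j hj
      simp only [mem_filter, mem_board, mem_Ico] at hj ⊢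
      exact ⟨⟨⟨⟨hi0, hi1⟩, hj.1⟩, hj.2⟩, trivial⟩
    · intro x hx
      simp only [mem_filter, mem_board] at hx
      ext
      · exact hx.2.symm
      · rfl
    · intro j hj
      rfl
  · intro j
    by_cases hj : 0 ≤ j ∧ j < n
    · refine le_trans ?_ (h.col j hj.1 hj.2)
      apply Finset.card_le_card_of_injOn (fun x => x.1)
      · intro x hx
        have hx' := (Finset.mem_coe.1 hx)
        simp only [mem_filter, mem_board] at hx'
        apply Finset.mem_coe.2
        simp only [mem_filter, mem_Ico]
        exact ⟨hx'.1.1.1, hx'.2 ▸ hx'.1.2⟩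
      · intro x hx y hy hxy
        have hx' := (Finset.mem_coe.1 hx)
        have hy' := (Finset.mem_coe.1 hy)
        simp only [mem_filter] at hx' hy'
        ext
        · exact hxy
        · rw [hx'.2, hy'.2]
    · rw [Finset.card_eq_zero.2, ]
      · exact Nat.zero_le _
      · rw [Finset.filter_eq_empty_iff]
        intro x hx hxj
        simp only [mem_filter, mem_board] at hx
        exact hj (hxj ▸ hx.1.2)
  · intro k
    refine le_trans ?_ (h.dg k)
    apply Finset.card_le_card_of_injOn (fun x => x.1)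
    · intro x hx
      have hx' := (Finset.mem_coe.1 hx)
      simp only [mem_filter, mem_board] at hx'
      apply Finset.mem_coe.2
      simp only [mem_filter, mem_Ico]
      have e : k - x.1 = x.2 := by omega
      rw [e]
      exact ⟨hx'.1.1.1, hx'.1.1.2, hx'.1.2⟩
    · intro x hx y hy hxy
      have hx' := (Finset.mem_coe.1 hx)
      have hy' := (Finset.mem_coe.1 hy)
      simp only [mem_filter] at hx' hy'
      have hxy' : x.1 = y.1 := hxy
      ext
      · exact hxy
      · omega
  · intro k
    refine le_trans ?_ (h.ad k)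
    apply Finset.card_le_card_of_injOn (fun x => x.1)
    · intro x hx
      have hx' := (Finset.mem_coe.1 hx)
      simp only [mem_filter, mem_board] at hx'
      apply Finset.mem_coe.2
      simp only [mem_filter, mem_Ico]
      have e : x.1 - k = x.2 := by omega
      rw [e]
      exact ⟨hx'.1.1.1, hx'.1.1.2, hx'.1.2⟩
    · intro x hx y hy hxy
      have hx' := (Finset.mem_coe.1 hx)
      have hy' := (Finset.mem_coe.1 hy)
      simp only [mem_filter] at hx' hy'
      have hxy' : x.1 = y.1 := hxy
      ext
      · exact hxy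
      · omega

theorem Pl.good {n c : ℕ} {S : Finset (ℤ × ℤ)} (h : Pl n c S) :
    Good n c (fun i j => (i, j) ∈ S) := by
  refine ⟨?_, ?_, ?_, ?_⟩
  · intro i hi0 hi1
    rw [← h.row i hi0 hi1]
    refine Finset.card_bij' (fun j _ => (i, j)) (fun x _ => x.2) ?_ ?_ ?_ ?_
    · intro j hj
      simp only [mem_filter, mem_Ico] at hj ⊢
      exact ⟨hj.2, trivial⟩
    · intro x hx
      simp only [mem_filter, mem_Ico] at hx ⊢
      exact ⟨(h.mem x hx.1).2, hx.2 ▸ hx.1⟩
    · intro j hj
      rfl
    · intro x hx
      simp only [mem_filter] at hx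
      ext
      · exact hx.2.symm
      · rfl
  · intro j hj0 hj1
    refine le_trans ?_ (h.col j)
    apply Finset.card_le_card_of_injOn (fun i => (i, j))
    · intro x hx
      have hx' := (Finset.mem_coe.1 hx)
      simp only [mem_filter, mem_Ico] at hx'
      apply Finset.mem_coe.2
      simp only [mem_filter]
      exact ⟨hx'.2, trivial⟩
    · intro x _ y _ hxy
      exact congrArg Prod.fst hxy
  · intro k
    refine le_trans ?_ (h.dg k)
    apply Finset.card_le_card_of_injOn (fun i => (i, k - i))
    · intro x hx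
      have hx' := (Finset.mem_coe.1 hx)
      simp only [mem_filter, mem_Ico] at hx'
      apply Finset.mem_coe.2
      simp only [mem_filter]
      exact ⟨hx'.2.2, by omega⟩
    · intro x _ y _ hxy
      exact congrArg Prod.fst hxy
  · intro k
    refine le_trans ?_ (h.ad k)
    apply Finset.card_le_card_of_injOn (fun i => (i, i - k))
    · intro x hx
      have hx' := (Finset.mem_coe.1 hx)
      simp only [mem_filter, mem_Ico] at hx'
      apply Finset.mem_coe.2
      simp only [mem_filter]
      exact ⟨hx'.2.2, by omega⟩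
    · intro x _ y _ hxy
      exact congrArg Prod.fst hxy

/-- position inside the outer index set -/
def pos (w m : ℤ) (i : ℤ) : ℤ := if i < w then i else i - m

/-- the predicate of the block construction -/
def BF (w m z : ℤ) (S : Finset (ℤ × ℤ)) (i j : ℤ) : Prop :=
  if w ≤ i ∧ i < w + m then (if w ≤ j ∧ j < w + m then (i - w, j - w) ∈ S else True)
  else (if w ≤ j ∧ j < w + m then True else (pos w m i - pos w m j) % (2 * w) < z)

instance (w m z : ℤ) (S : Finset (ℤ × ℤ)) (i j : ℤ) : Decidable (BF w m z S i j) := by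
  unfold BF; infer_instance

/-- `(t - (t - l) % N) % N = l`. -/
theorem sub_sub_emod {N t l : ℤ} (h0 : 0 ≤ l) (h1 : l < N) : (t - (t - l) % N) % N = l := by
  rw [Int.sub_emod, Int.emod_emod_of_dvd _ (dvd_refl _), ← Int.sub_emod, sub_sub_cancel]
  exact Int.emod_eq_of_lt h0 h1

theorem outer_row {m w z : ℕ} (hw : 0 < w) (hz : z ≤ 2 * w) (t : ℤ) :
    ((Ico (0:ℤ) (m + 2 * w : ℕ)).filter (fun j => ¬ ((w:ℤ) ≤ j ∧ j < w + m) ∧
      (t - pos w m j) % (2 * w) < z)).card = z := by
  have hw'' : (0:ℤ) < w := by exact_mod_cast hw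
  have hw' : (0:ℤ) < 2 * w := by omega
  have hz' : (z:ℤ) ≤ 2 * w := by exact_mod_cast hz
  have hc : (Ico (0:ℤ) z).card = z := by simp
  conv_rhs => rw [← hc]
  refine Finset.card_bij' (fun j _ => (t - pos w m j) % (2 * w))
    (fun l _ => if (t - l) % (2 * w) < w then (t - l) % (2 * w) else (t - l) % (2 * w) + m)
    ?_ ?_ ?_ ?_
  · intro j hj
    simp only [mem_filter, mem_Ico] at hj ⊢
    exact ⟨Int.emod_nonneg _ hw'.ne', hj.2.2⟩
  · intro l hl
    simp only [mem_filter, mem_Ico] at hl ⊢
    have h1 := Int.emod_nonneg (t - l) hw'.ne'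
    have h2 := Int.emod_lt_of_pos (t - l) hw'
    have h3 : (t - (t - l) % (2 * w)) % (2 * w) = l := sub_sub_emod hl.1 (by omega)
    generalize (t - l) % (2 * (w:ℤ)) = r at *
    split_ifs with hr
    · refine ⟨⟨h1, by push_cast; omega⟩, by omega, ?_⟩
      unfold pos
      rw [if_pos hr, h3]; exact hl.2
    · refine ⟨⟨by omega, by push_cast; omega⟩, by omega, ?_⟩
      unfold pos
      rw [if_neg (by omega), add_sub_cancel_right, h3]; exact hl.2
  · intro j hj
    simp only [mem_filter, mem_Ico] at hj
    obtain ⟨⟨h1, h2⟩, h3, h4⟩ := hj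
    push_cast at h2
    have h5 : 0 ≤ pos w m j ∧ pos w m j < 2 * w := by
      unfold pos; split_ifs <;> omega
    have h6 : (t - (t - pos w m j) % (2 * w)) % (2 * w) = pos w m j := sub_sub_emod h5.1 h5.2
    rw [h6]
    unfold pos
    by_cases hj : j < w
    · rw [if_pos hj, if_pos hj]
    · rw [if_neg hj, if_neg (by omega)]; omega
  · intro l hl
    simp only [mem_Ico] at hl
    have h1 := Int.emod_nonneg (t - l) hw'.ne'
    have h2 := Int.emod_lt_of_pos (t - l) hw'
    have h3 : (t - (t - l) % (2 * w)) % (2 * w) = l := sub_sub_emod hl.1 (by omega)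
    show (t - pos w m (if (t - l) % (2 * w) < w then (t - l) % (2 * w)
      else (t - l) % (2 * w) + m)) % (2 * w) = l
    generalize (t - l) % (2 * (w:ℤ)) = r at *
    split_ifs with hr
    · unfold pos
      rw [if_pos hr, h3]
    · unfold pos
      rw [if_neg (by omega), add_sub_cancel_right, h3]

theorem outer_col {m w z : ℕ} (hw : 0 < w) (t : ℤ) :
    ((Ico (0:ℤ) (m + 2 * w : ℕ)).filter (fun i => ¬ ((w:ℤ) ≤ i ∧ i < w + m) ∧
      (pos w m i - t) % (2 * w) < z)).card ≤ z := by
  have hw'' : (0:ℤ) < w := by exact_mod_cast hw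
  have hw' : (0:ℤ) < 2 * w := by omega
  have hc : (Ico (0:ℤ) z).card = z := by simp
  conv_rhs => rw [← hc]
  apply Finset.card_le_card_of_injOn (fun i => (pos w m i - t) % (2 * w))
  · intro i hi
    have hi' := (Finset.mem_coe.1 hi)
    simp only [mem_filter, mem_Ico] at hi'
    apply Finset.mem_coe.2
    simp only [mem_Ico]
    exact ⟨Int.emod_nonneg _ hw'.ne', hi'.2.2⟩
  · intro x hx y hy hxy
    have hx' := (Finset.mem_coe.1 hx)
    have hy' := (Finset.mem_coe.1 hy)
    simp only [mem_filter, mem_Ico] at hx' hy'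
    push_cast at hx' hy'
    have h5 : 0 ≤ pos w m x ∧ pos w m x < 2 * w := by
      unfold pos; split_ifs <;> omega
    have h6 : 0 ≤ pos w m y ∧ pos w m y < 2 * w := by
      unfold pos; split_ifs <;> omega
    have h7 : (2 * (w:ℤ)) ∣ (pos w m y - t) - (pos w m x - t) := Int.ModEq.dvd hxy
    have h8 : (pos w m y - t) - (pos w m x - t) = 0 := by
      apply Int.eq_zero_of_abs_lt_dvd h7
      rw [abs_lt]; constructor <;> omega
    have h9 : pos w m x = pos w m y := by omega
    unfold pos at h9
    split_ifs at h9 <;> omega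

theorem ex_block {m e w : ℕ} (hw : 0 < w) (he : e ≤ m) (hm : m ≤ 2 * w + e) (h : Ex m e) :
    Ex (m + 2 * w) (2 * w + e) := by
  obtain ⟨P, hP⟩ := h
  obtain ⟨z, hz⟩ : ∃ z : ℕ, m + z = 2 * w + e := ⟨2 * w + e - m, by omega⟩
  have hz2 : z ≤ 2 * w := by omega
  have G := hP.good
  have hw' : (0:ℤ) < w := by exact_mod_cast hw
  have hI : ∀ T : Finset ℤ, T = Ico (0:ℤ) (m + 2 * w : ℕ) → ∀ (f : ℤ → Prop) [DecidablePred f],
      (T.filter f).card = (T.filter (fun j => ((w:ℤ) ≤ j ∧ j < w + m) ∧ f j)).card +
        (T.filter (fun j => ¬ ((w:ℤ) ≤ j ∧ j < w + m) ∧ f j)).card := by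
    intro T hT f _
    rw [← Finset.card_filter_add_card_filter_not (s := T.filter f)
      (fun j => ((w:ℤ) ≤ j ∧ j < w + m))]
    rw [Finset.filter_filter, Finset.filter_filter]
    congr 2 <;> · ext x; simp only [mem_filter]; tauto
  have hout : ((Ico (0:ℤ) (m + 2 * w : ℕ)).filter (fun j => ¬ ((w:ℤ) ≤ j ∧ j < w + m))).card
      = 2 * w := by
    have : (Ico (0:ℤ) (m + 2 * w : ℕ)).filter (fun j => ¬ ((w:ℤ) ≤ j ∧ j < w + m)) =
        Ico (0:ℤ) w ∪ Ico ((w:ℤ) + m) (w + m + w) := by
      ext x
      simp only [mem_filter, mem_union, mem_Ico]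
      push_cast
      omega
    rw [this, Finset.card_union_of_disjoint]
    · simp; omega
    · rw [Finset.disjoint_left]
      intro x hx hy
      simp only [mem_Ico] at hx hy
      omega
  have hin : ((Ico (0:ℤ) (m + 2 * w : ℕ)).filter (fun j => ((w:ℤ) ≤ j ∧ j < w + m))).card
      = m := by
    have : (Ico (0:ℤ) (m + 2 * w : ℕ)).filter (fun j => ((w:ℤ) ≤ j ∧ j < w + m)) =
        Ico (w:ℤ) (w + m) := by
      ext x
      simp only [mem_filter, mem_Ico]
      push_cast
      omega
    rw [this]
    simp
  have hGood : Good (m + 2 * w) (2 * w + e) (BF w m z P) := by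
    refine ⟨?_, ?_, ?_, ?_⟩
    · intro i hi0 hi1
      rw [hI _ rfl]
      by_cases hi : (w:ℤ) ≤ i ∧ i < w + m
      · have e1 : (Ico (0:ℤ) (m + 2 * w : ℕ)).filter
            (fun j => ¬ ((w:ℤ) ≤ j ∧ j < w + m) ∧ BF w m z P i j) =
            (Ico (0:ℤ) (m + 2 * w : ℕ)).filter (fun j => ¬ ((w:ℤ) ≤ j ∧ j < w + m)) := by
          apply Finset.filter_congr
          intro j _
          constructor
          · exact fun h => h.1
          · intro h
            refine ⟨h, ?_⟩
            unfold BF
            rw [if_pos hi, if_neg h]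
            trivial
        rw [e1, hout]
        have e2 : ((Ico (0:ℤ) (m + 2 * w : ℕ)).filter
            (fun j => ((w:ℤ) ≤ j ∧ j < w + m) ∧ BF w m z P i j)).card = e := by
          rw [← G.row (i - w) (by omega) (by omega)]
          refine Finset.card_bij' (fun (j:ℤ) _ => j - (w:ℤ)) (fun (j:ℤ) _ => j + (w:ℤ)) ?_ ?_ ?_ ?_
          · intro j hj
            simp only [mem_filter, mem_Ico] at hj ⊢
            refine ⟨by omega, ?_⟩
            have := hj.2.2
            unfold BF at this
            rwa [if_pos hi, if_pos hj.2.1] at this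
          · intro j hj
            simp only [mem_filter, mem_Ico] at hj ⊢
            refine ⟨by push_cast; omega, by omega, ?_⟩
            unfold BF
            rw [if_pos hi, if_pos (by omega), add_sub_cancel_right]
            exact hj.2
          · intro j _; exact sub_add_cancel _ _
          · intro j _; exact add_sub_cancel_right _ _
        rw [e2]; omega
      · have e1 : (Ico (0:ℤ) (m + 2 * w : ℕ)).filter
            (fun j => ((w:ℤ) ≤ j ∧ j < w + m) ∧ BF w m z P i j) =
            (Ico (0:ℤ) (m + 2 * w : ℕ)).filter (fun j => ((w:ℤ) ≤ j ∧ j < w + m)) := by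
          apply Finset.filter_congr
          intro j _
          constructor
          · exact fun h => h.1
          · intro h
            refine ⟨h, ?_⟩
            unfold BF
            rw [if_neg hi, if_pos h]
            trivial
        rw [e1, hin]
        have e2 : (Ico (0:ℤ) (m + 2 * w : ℕ)).filter
            (fun j => ¬ ((w:ℤ) ≤ j ∧ j < w + m) ∧ BF w m z P i j) =
            (Ico (0:ℤ) (m + 2 * w : ℕ)).filter (fun j => ¬ ((w:ℤ) ≤ j ∧ j < w + m) ∧
              (pos w m i - pos w m j) % (2 * w) < z) := by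
          apply Finset.filter_congr
          intro j _
          constructor
          · intro h
            refine ⟨h.1, ?_⟩
            have := h.2
            unfold BF at this
            rwa [if_neg hi, if_neg h.1] at this
          · intro h
            refine ⟨h.1, ?_⟩
            unfold BF
            rw [if_neg hi, if_neg h.1]
            exact h.2
        rw [e2, outer_row hw hz2 (pos w m i)]
        omega
    · intro j hj0 hj1
      rw [hI _ rfl]
      by_cases hj : (w:ℤ) ≤ j ∧ j < w + m
      · have e1 : ((Ico (0:ℤ) (m + 2 * w : ℕ)).filter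
            (fun i => ¬ ((w:ℤ) ≤ i ∧ i < w + m) ∧ BF w m z P i j)).card ≤ 2 * w := by
          refine le_trans ?_ hout.le
          apply Finset.card_le_card
          intro i hi
          simp only [mem_filter] at hi ⊢
          exact ⟨hi.1, hi.2.1⟩
        have e2 : ((Ico (0:ℤ) (m + 2 * w : ℕ)).filter
            (fun i => ((w:ℤ) ≤ i ∧ i < w + m) ∧ BF w m z P i j)).card ≤ e := by
          refine le_trans ?_ (G.col (j - w) (by omega) (by omega))
          apply Finset.card_le_card_of_injOn (fun i : ℤ => i - (w:ℤ))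
          · intro i hi
            have hi := (Finset.mem_coe.1 hi)
            apply Finset.mem_coe.2
            simp only [mem_filter, mem_Ico] at hi ⊢
            refine ⟨by omega, ?_⟩
            have := hi.2.2
            unfold BF at this
            rwa [if_pos hi.2.1, if_pos hj] at this
          · intro x _ y _ hxy
            have : x - w = y - w := hxy
            omega
        omega
      · have e1 : ((Ico (0:ℤ) (m + 2 * w : ℕ)).filter
            (fun i => ((w:ℤ) ≤ i ∧ i < w + m) ∧ BF w m z P i j)).card ≤ m := by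
          refine le_trans ?_ hin.le
          apply Finset.card_le_card
          intro i hi
          simp only [mem_filter] at hi ⊢
          exact ⟨hi.1, hi.2.1⟩
        have e2 : ((Ico (0:ℤ) (m + 2 * w : ℕ)).filter
            (fun i => ¬ ((w:ℤ) ≤ i ∧ i < w + m) ∧ BF w m z P i j)).card ≤ z := by
          refine le_trans ?_ (outer_col (m := m) (z := z) hw (pos w m j))
          apply Finset.card_le_card
          intro i hi
          simp only [mem_filter] at hi ⊢
          refine ⟨hi.1, hi.2.1, ?_⟩
          have := hi.2.2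
          unfold BF at this
          rwa [if_neg hi.2.1, if_neg hj] at this
        omega
    · intro k
      have e2 : ((Ico (0:ℤ) (m + 2 * w : ℕ)).filter
          (fun i => ((w:ℤ) ≤ i ∧ i < w + m) ∧ ((w:ℤ) ≤ k - i ∧ k - i < w + m) ∧
            (i - w, k - i - w) ∈ P)).card ≤ e := by
        refine le_trans ?_ (G.dg (k - 2 * w))
        apply Finset.card_le_card_of_injOn (fun i : ℤ => i - (w:ℤ))
        · intro i hi
          have hi := (Finset.mem_coe.1 hi)
          apply Finset.mem_coe.2
          simp only [mem_filter, mem_Ico] at hi ⊢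
          have e3 : k - 2 * w - (i - w) = k - i - w := by ring
          rw [e3]
          exact ⟨by omega, by omega, hi.2.2.2⟩
        · intro x _ y _ hxy
          have : x - w = y - w := hxy
          omega
      have e1 : ∃ A B : ℤ, ∀ i : ℤ, 0 ≤ i → i < m + 2 * w → 0 ≤ k - i → k - i < m + 2 * w →
          ¬ (((w:ℤ) ≤ i ∧ i < w + m) ∧ ((w:ℤ) ≤ k - i ∧ k - i < w + m)) →
          i ∈ Ico A (A + w) ∪ Ico B (B + w) := by
        by_cases hk : (m:ℤ) + 2 * w - 1 ≤ k
        · refine ⟨k - (m + 2 * w - 1), w + m, ?_⟩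
          intro i h1 h2 h3 h4 h5
          simp only [mem_union, mem_Ico]
          omega
        · refine ⟨0, k - w + 1, ?_⟩
          intro i h1 h2 h3 h4 h5
          simp only [mem_union, mem_Ico]
          omega
      obtain ⟨A, B, hAB⟩ := e1
      have hAc : (Ico A (A + w) ∪ Ico B (B + w)).card ≤ 2 * w := by
        refine le_trans (Finset.card_union_le _ _) ?_
        simp; omega
      refine le_trans ?_ (Nat.add_le_add hAc e2)
      refine le_trans ?_ (Finset.card_union_le _ _)
      apply Finset.card_le_card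
      intro i hi
      simp only [mem_filter, mem_Ico] at hi
      push_cast at hi
      rw [Finset.mem_union]
      by_cases h5 : (((w:ℤ) ≤ i ∧ i < w + m) ∧ ((w:ℤ) ≤ k - i ∧ k - i < w + m))
      · right
        simp only [mem_filter, mem_Ico]
        refine ⟨by push_cast; omega, h5.1, h5.2, ?_⟩
        have := hi.2.2
        unfold BF at this
        rwa [if_pos h5.1, if_pos h5.2] at this
      · left
        exact hAB i hi.1.1 hi.1.2 hi.2.1.1 hi.2.1.2 h5
    · intro k
      have e2 : ((Ico (0:ℤ) (m + 2 * w : ℕ)).filter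
          (fun i => ((w:ℤ) ≤ i ∧ i < w + m) ∧ ((w:ℤ) ≤ i - k ∧ i - k < w + m) ∧
            (i - w, i - k - w) ∈ P)).card ≤ e := by
        refine le_trans ?_ (G.ad k)
        apply Finset.card_le_card_of_injOn (fun i : ℤ => i - (w:ℤ))
        · intro i hi
          have hi := (Finset.mem_coe.1 hi)
          apply Finset.mem_coe.2
          simp only [mem_filter, mem_Ico] at hi ⊢
          have e3 : i - w - k = i - k - w := by ring
          rw [e3]
          exact ⟨by omega, by omega, hi.2.2.2⟩
        · intro x _ y _ hxy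
          have : x - w = y - w := hxy
          omega
      have e1 : ∃ A B : ℤ, ∀ i : ℤ, 0 ≤ i → i < m + 2 * w → 0 ≤ i - k → i - k < m + 2 * w →
          ¬ (((w:ℤ) ≤ i ∧ i < w + m) ∧ ((w:ℤ) ≤ i - k ∧ i - k < w + m)) →
          i ∈ Ico A (A + w) ∪ Ico B (B + w) := by
        by_cases hk : 0 ≤ k
        · refine ⟨k, w + m, ?_⟩
          intro i h1 h2 h3 h4 h5
          simp only [mem_union, mem_Ico]
          omega
        · refine ⟨0, w + m + k, ?_⟩
          intro i h1 h2 h3 h4 h5
          simp only [mem_union, mem_Ico]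
          omega
      obtain ⟨A, B, hAB⟩ := e1
      have hAc : (Ico A (A + w) ∪ Ico B (B + w)).card ≤ 2 * w := by
        refine le_trans (Finset.card_union_le _ _) ?_
        simp; omega
      refine le_trans ?_ (Nat.add_le_add hAc e2)
      refine le_trans ?_ (Finset.card_union_le _ _)
      apply Finset.card_le_card
      intro i hi
      simp only [mem_filter, mem_Ico] at hi
      push_cast at hi
      rw [Finset.mem_union]
      by_cases h5 : (((w:ℤ) ≤ i ∧ i < w + m) ∧ ((w:ℤ) ≤ i - k ∧ i - k < w + m))
      · right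
        simp only [mem_filter, mem_Ico]
        refine ⟨by push_cast; omega, h5.1, h5.2, ?_⟩
        have := hi.2.2
        unfold BF at this
        rwa [if_pos h5.1, if_pos h5.2] at this
      · left
        exact hAB i hi.1.1 hi.1.2 hi.2.1.1 hi.2.1.2 h5
  exact hGood.ex

end Pool.Agent.Lib.MP_712a2d_co
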