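import Mathlib
import Pool.Agent.Lib.MP_712a2d_co.Basic

namespace Pool.Agent.Lib.MP_712a2d_co

open Finset

theorem ex_double {n c : ℕ} (h : Ex n c) : Ex (2 * n) (2 * c) := by
  obtain ⟨S, hS⟩ := h
  have split : ∀ (T : Finset (ℤ × ℤ)) (f : ℤ × ℤ → ℤ), T.card =
      (T.filter (fun x => f x % 2 = 0)).card + (T.filter (fun x => f x % 2 = 1)).card := by
    intro T f
    rw [← Finset.card_filter_add_card_filter_not (s := T) (fun x => f x % 2 = 0)]
    congr 2
    ext x
    simp only [mem_filter]
    constructor
    · rintro ⟨h1, h2⟩; exact ⟨h1, by omega⟩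
    · rintro ⟨h1, h2⟩; exact ⟨h1, by omega⟩
  refine ⟨(board (2 * n)).filter (fun x => (x.1 / 2, x.2 / 2) ∈ S), ?_, ?_, ?_, ?_, ?_⟩
  · intro x hx
    exact mem_board.1 (mem_filter.1 hx).1
  · intro i hi0 hi1
    push_cast at hi1
    rw [split _ (fun x => x.2), two_mul c]
    have row : ∀ b : ℤ, 0 ≤ b → b < 2 →
        ((((board (2 * n)).filter (fun x => (x.1 / 2, x.2 / 2) ∈ S)).filter
          (fun x => x.1 = i)).filter (fun x => x.2 % 2 = b)).card = c := by
      intro b hb0 hb1
      rw [← hS.row (i / 2) (by omega) (by omega)]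
      refine Finset.card_bij' (fun x _ => (x.1 / 2, x.2 / 2)) (fun y _ => (i, 2 * y.2 + b)) ?_ ?_ ?_ ?_
      · intro x hx
        simp only [mem_filter, mem_board] at hx ⊢
        exact ⟨hx.1.1.2, by rw [hx.1.2]⟩
      · intro y hy
        simp only [mem_filter, mem_board] at hy ⊢
        have h1 := hS.mem y hy.1
        have e : (2 * y.2 + b) / 2 = y.2 := by omega
        refine ⟨⟨⟨⟨⟨hi0, by push_cast; exact hi1⟩, by omega, by push_cast; omega⟩, ?_⟩, trivial⟩,
          by omega⟩
        rw [e, ← hy.2]
        exact hy.1
      · intro x hx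
        simp only [mem_filter, mem_board] at hx
        ext
        · exact hx.1.2.symm
        · show 2 * (x.2 / 2) + b = x.2
          omega
      · intro y hy
        simp only [mem_filter] at hy
        ext
        · exact hy.2.symm
        · show (2 * y.2 + b) / 2 = y.2
          omega
    rw [row 0 (by norm_num) (by norm_num), row 1 (by norm_num) (by norm_num)]
  · intro j
    rw [split _ (fun x => x.1), two_mul c]
    have col : ∀ b : ℤ, 
        ((((board (2 * n)).filter (fun x => (x.1 / 2, x.2 / 2) ∈ S)).filter
          (fun x => x.2 = j)).filter (fun x => x.1 % 2 = b)).card ≤ c := by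
      intro b 
      refine le_trans ?_ (hS.col (j / 2))
      apply Finset.card_le_card_of_injOn (fun x => (x.1 / 2, x.2 / 2))
      · intro x hx
        have hx' := (Finset.mem_coe.1 hx)
        simp only [mem_filter, mem_board] at hx'
        apply Finset.mem_coe.2
        simp only [mem_filter]
        exact ⟨hx'.1.1.2, by rw [hx'.1.2]⟩
      · intro x hx y hy hxy
        have hx' := (Finset.mem_coe.1 hx)
        have hy' := (Finset.mem_coe.1 hy)
        simp only [mem_filter, mem_board] at hx' hy'
        have h1 : x.1 / 2 = y.1 / 2 := congrArg Prod.fst hxy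
        have h2 : x.2 / 2 = y.2 / 2 := congrArg Prod.snd hxy
        ext <;> omega
    exact Nat.add_le_add (col 0) (col 1)
  · intro k
    rw [split _ (fun x => x.1), two_mul c]
    have col : ∀ b : ℤ, 0 ≤ b → b < 2 →
        ((((board (2 * n)).filter (fun x => (x.1 / 2, x.2 / 2) ∈ S)).filter
          (fun x => x.1 + x.2 = k)).filter (fun x => x.1 % 2 = b)).card ≤ c := by
      intro b hb0 hb1
      refine le_trans ?_ (hS.dg ((k - b) / 2))
      apply Finset.card_le_card_of_injOn (fun x => (x.1 / 2, x.2 / 2))
      · intro x hx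
        have hx' := (Finset.mem_coe.1 hx)
        simp only [mem_filter, mem_board] at hx'
        apply Finset.mem_coe.2
        simp only [mem_filter]
        exact ⟨hx'.1.1.2, by omega⟩
      · intro x hx y hy hxy
        have hx' := (Finset.mem_coe.1 hx)
        have hy' := (Finset.mem_coe.1 hy)
        simp only [mem_filter, mem_board] at hx' hy'
        have h1 : x.1 / 2 = y.1 / 2 := congrArg Prod.fst hxy
        have h2 : x.2 / 2 = y.2 / 2 := congrArg Prod.snd hxy
        ext <;> omega
    exact Nat.add_le_add (col 0 (by norm_num) (by norm_num)) (col 1 (by norm_num) (by norm_num))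
  · intro k
    rw [split _ (fun x => x.1), two_mul c]
    have col : ∀ b : ℤ, 0 ≤ b → b < 2 →
        ((((board (2 * n)).filter (fun x => (x.1 / 2, x.2 / 2) ∈ S)).filter
          (fun x => x.1 - x.2 = k)).filter (fun x => x.1 % 2 = b)).card ≤ c := by
      intro b hb0 hb1
      refine le_trans ?_ (hS.ad ((k - b + 1) / 2))
      apply Finset.card_le_card_of_injOn (fun x => (x.1 / 2, x.2 / 2))
      · intro x hx
        have hx' := (Finset.mem_coe.1 hx)
        simp only [mem_filter, mem_board] at hx'
        apply Finset.mem_coe.2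
        simp only [mem_filter]
        exact ⟨hx'.1.1.2, by omega⟩
      · intro x hx y hy hxy
        have hx' := (Finset.mem_coe.1 hx)
        have hy' := (Finset.mem_coe.1 hy)
        simp only [mem_filter, mem_board] at hx' hy'
        have h1 : x.1 / 2 = y.1 / 2 := congrArg Prod.fst hxy
        have h2 : x.2 / 2 = y.2 / 2 := congrArg Prod.snd hxy
        ext <;> omega
    exact Nat.add_le_add (col 0 (by norm_num) (by norm_num)) (col 1 (by norm_num) (by norm_num))

end Pool.Agent.Lib.MP_712a2d_co
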