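import Mathlib
import Pool.Agent.Lib.MP_712a2d_co.Basic

namespace Pool.Agent.Lib.MP_712a2d_co

open Finset

theorem dvd_two_mul {n : ℕ} (h : n % 2 = 1) {x : ℤ} (hx : (n:ℤ) ∣ 2 * x) : (n:ℤ) ∣ x := by
  have h1 : Nat.Coprime n 2 := by
    rw [Nat.coprime_comm, Nat.Prime.coprime_iff_not_dvd Nat.prime_two]; omega
  have h2 : IsCoprime (n:ℤ) 2 := by exact_mod_cast Nat.isCoprime_iff_coprime.2 h1
  exact h2.dvd_of_dvd_mul_left hx

theorem dvd_three_mul {n : ℕ} (h : n % 3 ≠ 0) {x : ℤ} (hx : (n:ℤ) ∣ 3 * x) : (n:ℤ) ∣ x := by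
  have h1 : Nat.Coprime n 3 := by
    rw [Nat.coprime_comm, Nat.Prime.coprime_iff_not_dvd Nat.prime_three]; omega
  have h2 : IsCoprime (n:ℤ) 3 := by exact_mod_cast Nat.isCoprime_iff_coprime.2 h1
  exact h2.dvd_of_dvd_mul_left hx

theorem not_dvd_of_pos_lt {n : ℕ} {x : ℤ} (h0 : 0 < x) (h1 : x < n) : ¬ (n:ℤ) ∣ x := by
  intro h
  have := Int.le_of_dvd h0 h
  omega

/-- positive multiple of `n` below `2n` is `n`. -/
theorem eq_of_dvd {n : ℕ} {x : ℤ} (h0 : 0 < x) (h1 : x < 2 * n) (h : (n:ℤ) ∣ x) : x = n := by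
  have h2 : (n:ℤ) ∣ x - n := dvd_sub_self_right.2 h
  have h3 := Int.le_of_dvd h0 h
  by_contra hne
  have : ¬ (n:ℤ) ∣ x - n := not_dvd_of_pos_lt (by omega) (by omega)
  exact this h2

/-- `n` coprime to 6. -/
theorem ex_coprime (n c : ℕ) (h2 : n % 2 = 1) (h3 : n % 3 ≠ 0) (hc : c ≤ n) : Ex n c := by
  have hn : 0 < n := by omega
  have hcard : (Ico (0:ℤ) c).card = c := by simp
  have := label n hn (fun i => 2 * i) (Ico (0:ℤ) c)
    (Finset.Ico_subset_Ico_right (by exact_mod_cast hc)) ?_ ?_ ?_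
  · rw [hcard] at this
    exact ⟨_, this⟩
  · intro i i' h0 h1 hi' hd
    have hd' : (n:ℤ) ∣ 2 * (i' - i) := by
      have e : 2 * (i' - i) = 2 * i' - 2 * i := by ring
      rw [e]; exact hd
    exact not_dvd_of_pos_lt (by omega) (by omega) (dvd_two_mul h2 hd')
  · intro i i' j j' h0 h1 hi' hj' hj hk hd
    exfalso
    have hd' : (n:ℤ) ∣ 3 * (i' - i) := by
      have e : 3 * (i' - i) = (2 * i' - j') - (2 * i - j) := by linarith
      rw [e]; exact hd
    exact not_dvd_of_pos_lt (by omega) (by omega) (dvd_three_mul h3 hd')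
  · intro i i' j j' h0 h1 hi' hj' hj hk hd
    exfalso
    have hd' : (n:ℤ) ∣ (i' - i) := by
      have e : (i' - i) = (2 * i' - j') - (2 * i - j) := by linarith
      rw [e]; exact hd
    exact not_dvd_of_pos_lt (by omega) (by omega) hd'

/-- choose `c` labels avoiding the residues of `[l, l+s)`. -/
theorem choose_labels (n c s : ℕ) (l : ℤ) (h : c + s ≤ n) :
    ∃ C : Finset ℤ, C ⊆ Ico (0:ℤ) n ∧ C.card = c ∧
      ∀ x : ℤ, l ≤ x → x < l + s → x % n ∉ C := by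
  classical
  set B : Finset ℤ := (Ico l (l + s)).image (fun x => x % (n:ℤ)) with hB
  have hBc : B.card ≤ s := by
    refine le_trans Finset.card_image_le ?_
    simp
  have h1 : c ≤ ((Ico (0:ℤ) n) \ B).card := by
    have := Finset.le_card_sdiff B (Ico (0:ℤ) n)
    simp only [Int.card_Ico, sub_zero, Int.toNat_natCast] at this
    omega
  obtain ⟨C, hC1, hC2⟩ := Finset.exists_subset_card_eq h1
  refine ⟨C, fun x hx => (mem_sdiff.1 (hC1 hx)).1, hC2, ?_⟩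
  intro x hx1 hx2 hx3
  apply (mem_sdiff.1 (hC1 hx3)).2
  rw [hB, mem_image]
  exact ⟨x, mem_Ico.2 ⟨hx1, hx2⟩, rfl⟩

/-- `n` even, not divisible by 3. -/
theorem ex_two (n c : ℕ) (h2 : n % 2 = 0) (h3 : n % 3 ≠ 0) (hc : c + 7 ≤ n) : Ex n c := by
  have hn : 0 < n := by omega
  obtain ⟨h, rfl⟩ : ∃ h, n = 2 * h := ⟨n / 2, by omega⟩
  obtain ⟨C, hC1, hC2, hC3⟩ := choose_labels (2 * h) c 7 (-2) hc
  have hC4 : ∀ y x : ℤ, ((2 * h : ℕ):ℤ) ∣ y - x → -2 ≤ x → x < 5 → y % ((2 * h : ℕ):ℤ) ∉ C := by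
    intro y x hyx hx1 hx2
    have : y % ((2 * h : ℕ):ℤ) = x % ((2 * h : ℕ):ℤ) :=
      Int.ModEq.symm ((Int.modEq_iff_dvd).2 hyx)
    rw [this]
    exact hC3 x hx1 (by push_cast; omega)
  have := label (2 * h) hn (fun i => 2 * i + if (h:ℤ) ≤ i then 3 else 0) C hC1 ?_ ?_ ?_
  · rw [hC2] at this
    exact ⟨_, this⟩
  · intro i i' h0 h1 hi' hd
    push_cast at hi'
    obtain ⟨t, ht⟩ := hd
    push_cast at ht
    have e : 2 * (h:ℤ) * t = 2 * (h * t) := by ring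
    rw [e] at ht
    by_cases c1 : (h:ℤ) ≤ i
    · have c2 : (h:ℤ) ≤ i' := by omega
      rw [if_pos c1, if_pos c2] at ht
      exact not_dvd_of_pos_lt (n := h) (x := i' - i) (by omega) (by omega) ⟨t, by omega⟩
    · by_cases c2 : (h:ℤ) ≤ i'
      · rw [if_neg c1, if_pos c2] at ht
        generalize (h:ℤ) * t = m at ht
        omega
      · rw [if_neg c1, if_neg c2] at ht
        exact not_dvd_of_pos_lt (n := h) (x := i' - i) (by omega) (by omega) ⟨t, by omega⟩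
  · intro i i' j j' h0 h1 hi' hj' hj hk hd
    push_cast at hi' hj
    have hd' : ((2 * h : ℕ):ℤ) ∣ 3 * ((i' + if (h:ℤ) ≤ i' then 1 else 0) -
        (i + if (h:ℤ) ≤ i then 1 else 0)) := by
      have e : 3 * ((i' + if (h:ℤ) ≤ i' then 1 else 0) - (i + if (h:ℤ) ≤ i then 1 else 0)) =
        (2 * i' + (if (h:ℤ) ≤ i' then 3 else 0) - j') -
        (2 * i + (if (h:ℤ) ≤ i then 3 else 0) - j) := by
        split_ifs <;> linarith
      rw [e]; exact hd
    have hd2 := dvd_three_mul h3 hd'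
    have hd3 := eq_of_dvd (by split_ifs <;> omega) (by push_cast; split_ifs <;> omega) hd2
    push_cast at hd3
    have hi : i = 0 := by split_ifs at hd3 <;> omega
    have hii : i' = 2 * h - 1 := by split_ifs at hd3 <;> omega
    have hjj : j = 2 * h - 1 := by omega
    have hlt : ¬ ((h:ℤ) ≤ i) := by omega
    apply hC4 _ 1 _ (by norm_num) (by norm_num)
    rw [if_neg hlt, hi, hjj]
    exact ⟨-1, by push_cast; ring⟩
  · intro i i' j j' h0 h1 hi' hj' hj hk hd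
    push_cast at hi' hj
    have hd' : ((2 * h : ℕ):ℤ) ∣ ((i' + if (h:ℤ) ≤ i' then 3 else 0) -
        (i + if (h:ℤ) ≤ i then 3 else 0)) := by
      have e : ((i' + if (h:ℤ) ≤ i' then 3 else 0) - (i + if (h:ℤ) ≤ i then 3 else 0)) =
        (2 * i' + (if (h:ℤ) ≤ i' then 3 else 0) - j') -
        (2 * i + (if (h:ℤ) ≤ i then 3 else 0) - j) := by
        split_ifs <;> linarith
      rw [e]; exact hd
    have hd3 := eq_of_dvd (by split_ifs <;> omega) (by push_cast; split_ifs <;> omega) hd'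
    push_cast at hd3
    have hi : i ≤ 2 ∧ j ≤ 2 ∧ 0 ≤ j ∧ ¬ ((h:ℤ) ≤ i) := by split_ifs at hd3 <;> omega
    apply hC4 _ (2 * i - j) _ (by omega) (by omega)
    rw [if_neg hi.2.2.2]
    exact ⟨0, by ring⟩

/-- `n` odd, divisible by 3. -/
theorem ex_three (n c : ℕ) (h2 : n % 2 = 1) (h3 : n % 3 = 0) (hc : c + 13 ≤ n) : Ex n c := by
  have hn : 0 < n := by omega
  obtain ⟨g, rfl⟩ : ∃ g, n = 3 * g := ⟨n / 3, by omega⟩
  obtain ⟨C, hC1, hC2, hC3⟩ := choose_labels (3 * g) c 13 (-3) hc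
  have hC4 : ∀ y x : ℤ, ((3 * g : ℕ):ℤ) ∣ y - x → -3 ≤ x → x < 10 → y % ((3 * g : ℕ):ℤ) ∉ C := by
    intro y x hyx hx1 hx2
    have : y % ((3 * g : ℕ):ℤ) = x % ((3 * g : ℕ):ℤ) :=
      Int.ModEq.symm ((Int.modEq_iff_dvd).2 hyx)
    rw [this]
    exact hC3 x hx1 (by push_cast; omega)
  -- the number of completed thirds
  let q : ℤ → ℤ := fun i => (if (g:ℤ) ≤ i then 1 else 0) + (if 2 * (g:ℤ) ≤ i then 1 else 0)
  have hq : ∀ i : ℤ, q i = (if (g:ℤ) ≤ i then 1 else 0) + (if 2 * (g:ℤ) ≤ i then 1 else 0) :=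
    fun i => rfl
  have := label (3 * g) hn (fun i => 3 * i + 4 * q i) C hC1 ?_ ?_ ?_
  · rw [hC2] at this
    exact ⟨_, this⟩
  · intro i i' h0 h1 hi' hd
    push_cast at hi'
    obtain ⟨t, ht⟩ := hd
    push_cast at ht
    have e : 3 * (g:ℤ) * t = 3 * (g * t) := by ring
    rw [e] at ht
    have hqq : q i = q i' := by
      generalize (g:ℤ) * t = m at ht
      rw [hq, hq] at *
      split_ifs at * <;> omega
    rw [hqq] at ht
    have hii : i' - i < g := by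
      rw [hq, hq] at hqq
      split_ifs at * <;> omega
    exact not_dvd_of_pos_lt (n := g) (x := i' - i) (by omega) (by omega) ⟨t, by omega⟩
  · intro i i' j j' h0 h1 hi' hj' hj hk hd
    push_cast at hi' hj
    have hd' : ((3 * g : ℕ):ℤ) ∣ 2 * (2 * ((i' + q i') - (i + q i))) := by
      have e : 2 * (2 * ((i' + q i') - (i + q i))) =
        (3 * i' + 4 * q i' - j') - (3 * i + 4 * q i - j) := by
        linarith
      rw [e]; exact hd
    have hd2 := dvd_two_mul h2 (dvd_two_mul h2 hd')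
    have hd3 := eq_of_dvd (by rw [hq, hq]; split_ifs <;> omega)
      (by push_cast; rw [hq, hq]; split_ifs <;> omega) hd2
    push_cast at hd3
    rw [hq, hq] at hd3
    have hi : i ≤ 1 ∧ 3 * (g:ℤ) - 2 ≤ j ∧ ¬ ((g:ℤ) ≤ i) ∧ ¬ (2 * (g:ℤ) ≤ i) := by
      split_ifs at hd3 <;> omega
    apply hC4 _ (3 * i - (j - 3 * g)) _ (by omega) (by omega)
    rw [hq, if_neg hi.2.2.1, if_neg hi.2.2.2]
    exact ⟨-1, by push_cast; ring⟩
  · intro i i' j j' h0 h1 hi' hj' hj hk hd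
    push_cast at hi' hj
    have hd' : ((3 * g : ℕ):ℤ) ∣ 2 * ((i' + 2 * q i') - (i + 2 * q i)) := by
      have e : 2 * ((i' + 2 * q i') - (i + 2 * q i)) =
        (3 * i' + 4 * q i' - j') - (3 * i + 4 * q i - j) := by
        linarith
      rw [e]; exact hd
    have hd2 := dvd_two_mul h2 hd'
    have hd3 := eq_of_dvd (by rw [hq, hq]; split_ifs <;> omega)
      (by push_cast; rw [hq, hq]; split_ifs <;> omega) hd2
    push_cast at hd3
    rw [hq, hq] at hd3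
    have hi : i ≤ 3 ∧ j ≤ 3 ∧ 0 ≤ j ∧ ¬ ((g:ℤ) ≤ i) ∧ ¬ (2 * (g:ℤ) ≤ i) := by
      split_ifs at hd3 <;> omega
    apply hC4 _ (3 * i - j) _ (by omega) (by omega)
    rw [hq, if_neg hi.2.2.2.1, if_neg hi.2.2.2.2]
    exact ⟨0, by ring⟩

end Pool.Agent.Lib.MP_712a2d_co
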