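import Mathlib
import Pool.Agent.Lib.MP_712a2d_co.Block

namespace Pool.Agent.Lib.MP_712a2d_co

open Finset

theorem em_neg {x N : ℤ} (h1 : -(2 * N) ≤ x) (h2 : x < N) :
    (0 ≤ x ∧ x % N = x) ∨ (-N ≤ x ∧ x < 0 ∧ x % N = x + N) ∨ (x < -N ∧ x % N = x + 2 * N) := by
  rcases lt_trichotomy x 0 with h | h | h
  · by_cases h3 : -N ≤ x
    · right; left
      refine ⟨h3, h, ?_⟩
      rw [← Int.add_emod_right, Int.emod_eq_of_lt (by omega) (by omega)]
    · right; right
      refine ⟨by omega, ?_⟩
      rw [← Int.add_emod_right, ← Int.add_emod_right, Int.emod_eq_of_lt (by omega) (by omega)]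
      ring
  · left; exact ⟨h.ge, Int.emod_eq_of_lt h.ge h2⟩
  · left; exact ⟨h.le, Int.emod_eq_of_lt h.le h2⟩

theorem em_pos {x N : ℤ} (h1 : 0 ≤ x) (h2 : x < 3 * N) :
    (x < N ∧ x % N = x) ∨ (N ≤ x ∧ x < 2 * N ∧ x % N = x - N) ∨
      (2 * N ≤ x ∧ x % N = x - 2 * N) := by
  by_cases h3 : x < N
  · left; exact ⟨h3, Int.emod_eq_of_lt h1 h3⟩
  · by_cases h4 : x < 2 * N
    · right; left
      refine ⟨by omega, h4, ?_⟩
      have : x % N = (x - N) % N := (Int.sub_emod_right x N).symm
      rw [this, Int.emod_eq_of_lt (by omega) (by omega)]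
    · right; right
      refine ⟨by omega, ?_⟩
      have : x % N = (x - N - N) % N := by
        rw [Int.sub_emod_right, Int.sub_emod_right]
      rw [this, Int.emod_eq_of_lt (by omega) (by omega)]
      ring

/-- the symmetric set of shifts -/
def inV (p r v : ℤ) : Prop := 1 ≤ v ∧ v ≤ p - 1 ∧ (v ≤ r ∨ p - v ≤ r)

/-- the set of labels -/
def inC (p r l : ℤ) : Prop := l = 0 ∨ (l % 2 = 0 ∧ inV p r (l / 2))

/-- the set of cells -/
def SF (p r : ℤ) (i j : ℤ) : Prop :=
  inC p r ((j + 1 - 2 * (i + 1)) % (2 * p + 1)) ∨ (inV p r (i - p) ∧ j + 1 = 2 * (i - p))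

instance (p r v : ℤ) : Decidable (inV p r v) := by unfold inV; infer_instance
instance (p r v : ℤ) : Decidable (inC p r v) := by unfold inC; infer_instance
instance (p r i j : ℤ) : Decidable (SF p r i j) := by unfold SF; infer_instance

/-- the labels as a finset -/
noncomputable def CC (p r : ℕ) : Finset ℤ := (Ico (0:ℤ) (2 * p + 1)).filter (fun l => inC p r l)

theorem card_CC (p r : ℕ) (h : 2 * r + 1 ≤ p) : (CC p r).card = 2 * r + 1 := by
  have e : CC p r = (Ico (0:ℤ) (r + 1) ∪ Ico ((p:ℤ) - r) p).image (fun v => 2 * v) := by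
    ext l
    simp only [CC, mem_filter, mem_Ico, mem_image, mem_union, inC, inV]
    constructor
    · intro h1
      refine ⟨l / 2, ?_, ?_⟩ <;> omega
    · rintro ⟨v, h1, rfl⟩
      omega
  rw [e, Finset.card_image_of_injective _ (fun a b hab => by
    have : 2 * a = 2 * b := hab
    omega), Finset.card_union_of_disjoint]
  · simp; omega
  · rw [Finset.disjoint_left]
    intro x hx hy
    simp only [mem_Ico] at hx hy
    omega

/-- label of a cell -/
def Lb (p i j : ℤ) : ℤ := (j + 1 - 2 * (i + 1)) % (2 * p + 1)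

theorem Lb_cases {p i j : ℤ} (i0 : 0 ≤ i) (i1 : i < 2 * p) (j0 : 0 ≤ j) (j1 : j < 2 * p) :
    ∃ t : ℤ, (t = 0 ∨ t = 1 ∨ t = 2) ∧ Lb p i j = j + 1 - 2 * (i + 1) + t * (2 * p + 1) ∧
      0 ≤ Lb p i j ∧ Lb p i j < 2 * p + 1 := by
  have h0 : 0 ≤ Lb p i j := Int.emod_nonneg _ (by omega)
  have h1 : Lb p i j < 2 * p + 1 := Int.emod_lt_of_pos _ (by omega)
  rcases em_neg (x := j + 1 - 2 * (i + 1)) (N := 2 * p + 1) (by omega) (by omega) with
    h | h | h
  · exact ⟨0, by simp, by unfold Lb; rw [h.2]; ring, h0, h1⟩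
  · exact ⟨1, by simp, by unfold Lb; rw [h.2.2]; ring, h0, h1⟩
  · exact ⟨2, by simp, by unfold Lb; rw [h.2], h0, h1⟩

theorem mem_CC {p r : ℕ} {l : ℤ} : l ∈ CC p r ↔ (0 ≤ l ∧ l < 2 * p + 1) ∧ inC p r l := by
  simp only [CC, mem_filter, mem_Ico]

theorem SF_iff {p r i j : ℤ} : SF p r i j ↔
    inC p r (Lb p i j) ∨ (inV p r (i - p) ∧ j + 1 = 2 * (i - p)) := Iff.rfl

/-- general injection principle for a line -/
theorem line_le {p r : ℕ} (hr : 2 * r + 1 ≤ p) (T : Finset ℤ) (u v w : ℤ → ℤ)
    (hT : ∀ x ∈ T, (0 ≤ u x ∧ u x < 2 * p) ∧ (0 ≤ v x ∧ v x < 2 * p) ∧ SF p r (u x) (v x))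
    (hw : ∀ x ∈ T, ¬ inC p r (Lb p (u x) (v x)) → (0 ≤ w x ∧ w x < 2 * p + 1) ∧ inC p r (w x))
    (h1 : ∀ x ∈ T, ∀ y ∈ T, inC p r (Lb p (u x) (v x)) → inC p r (Lb p (u y) (v y)) →
      Lb p (u x) (v x) = Lb p (u y) (v y) → x = y)
    (h2 : ∀ x ∈ T, ∀ y ∈ T, (inV p r (u x - p) ∧ v x + 1 = 2 * (u x - p)) →
      (inV p r (u y - p) ∧ v y + 1 = 2 * (u y - p)) → w x = w y → x = y)
    (h3 : ∀ x ∈ T, ∀ y ∈ T, inC p r (Lb p (u x) (v x)) →
      (inV p r (u y - p) ∧ v y + 1 = 2 * (u y - p)) → Lb p (u x) (v x) ≠ w y) :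
    T.card ≤ 2 * r + 1 := by
  rw [← card_CC p r hr]
  apply Finset.card_le_card_of_injOn
    (fun x => if inC p r (Lb p (u x) (v x)) then Lb p (u x) (v x) else w x)
  · intro x hx
    have hx := Finset.mem_coe.1 hx
    apply Finset.mem_coe.2
    rw [mem_CC]
    dsimp only
    obtain ⟨a, b, c⟩ := hT x hx
    split_ifs with hin
    · obtain ⟨t, _, _, h⟩ := Lb_cases a.1 a.2 b.1 b.2
      exact ⟨h, hin⟩
    · exact hw x hx hin
  · intro x hx y hy hxy
    have hx := Finset.mem_coe.1 hx
    have hy := Finset.mem_coe.1 hy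
    dsimp only at hxy
    obtain ⟨a, b, c⟩ := hT x hx
    obtain ⟨a', b', c'⟩ := hT y hy
    rw [SF_iff] at c c'
    split_ifs at hxy with k1 k2 k2
    · exact h1 x hx y hy k1 k2 hxy
    · exact absurd hxy (h3 x hx y hy k1 (c'.resolve_left k2))
    · exact absurd hxy.symm (h3 y hy x hx k2 (c.resolve_left k1))
    · exact h2 x hx y hy (c.resolve_left k1) (c'.resolve_left k2) hxy

theorem six_good {g r : ℕ} (hg : 2 * r + 1 ≤ 3 * g) :
    Good (2 * (3 * g)) (2 * r + 1) (SF (3 * g : ℕ) r) := by
  refine ⟨?_, ?_, ?_, ?_⟩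
  · intro i hi0 hi1
    push_cast at hi1
    apply le_antisymm
    · apply line_le (p := 3 * g) hg _ (fun _ => i) (fun j => j) (fun _ => 2 * (2 * (3 * g) - i))
      · intro j hj
        simp only [mem_filter, mem_Ico] at hj
        push_cast at hj ⊢
        exact ⟨⟨hi0, hi1⟩, hj.1, hj.2⟩
      · intro j hj hn
        simp only [mem_filter, mem_Ico] at hj
        have := (SF_iff.1 hj.2).resolve_left hn
        push_cast at this ⊢
        unfold inC inV at *
        omega
      · intro x hx y hy _ _ hl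
        simp only [mem_filter, mem_Ico] at hx hy
        push_cast at hx hy hl
        obtain ⟨t, ht, e, _⟩ := Lb_cases hi0 hi1 hx.1.1 hx.1.2
        obtain ⟨t', ht', e', _⟩ := Lb_cases hi0 hi1 hy.1.1 hy.1.2
        rw [e, e'] at hl
        rcases ht with rfl | rfl | rfl <;> rcases ht' with rfl | rfl | rfl <;> omega
      · intro x hx y hy h h' _
        omega
      · intro x hx y hy h h' hl
        simp only [mem_filter, mem_Ico] at hx hy
        push_cast at hx hy hl h h'
        obtain ⟨t, ht, e, _⟩ := Lb_cases hi0 hi1 hx.1.1 hx.1.2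
        rw [e] at hl
        rcases ht with rfl | rfl | rfl <;> omega
    · rw [← card_CC (3 * g) r hg]
      apply Finset.card_le_card_of_injOn (fun l : ℤ =>
        if (l + 2 * (i + 1)) % (2 * (3 * g) + 1) = 0 then 2 * (i - 3 * g) - 1
        else (l + 2 * (i + 1)) % (2 * (3 * g) + 1) - 1)
      · intro l hl
        have hl := (Finset.mem_coe.1 hl)
        apply Finset.mem_coe.2
        rw [mem_CC] at hl
        push_cast at hl
        simp only [mem_filter, mem_Ico, SF_iff]
        push_cast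
        have hN : (2 * (3 * (g:ℤ)) + 1) ≠ 0 := by omega
        rcases em_pos (x := l + 2 * (i + 1)) (N := 2 * (3 * (g:ℤ)) + 1) (by omega) (by omega) with
          h | h | h
        · have hne : (l + 2 * (i + 1)) % (2 * (3 * (g:ℤ)) + 1) ≠ 0 := by omega
          rw [if_neg hne, h.2]
          refine ⟨by omega, ?_⟩
          left
          have : Lb (3 * g) i (l + 2 * (i + 1) - 1) = l := by
            unfold Lb
            have e : l + 2 * (i + 1) - 1 + 1 - 2 * (i + 1) = l := by ring
            rw [e]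
            exact Int.emod_eq_of_lt hl.1.1 hl.1.2
          rw [this]; exact hl.2
        · rw [h.2.2]
          split_ifs with h0
          · have hC := hl.2
            unfold inC inV at hC
            refine ⟨by omega, ?_⟩
            right
            unfold inV
            omega
          · refine ⟨by omega, ?_⟩
            left
            have : Lb (3 * g) i (l + 2 * (i + 1) - (2 * (3 * (g:ℤ)) + 1) - 1) = l := by
              unfold Lb
              have e : l + 2 * (i + 1) - (2 * (3 * (g:ℤ)) + 1) - 1 + 1 - 2 * (i + 1) =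
                l - (2 * (3 * (g:ℤ)) + 1) := by ring
              rw [e, Int.sub_emod_right]
              exact Int.emod_eq_of_lt hl.1.1 hl.1.2
            rw [this]; exact hl.2
        · rw [h.2]
          split_ifs with h0
          · have hC := hl.2
            unfold inC inV at hC
            refine ⟨by omega, ?_⟩
            right
            unfold inV
            omega
          · refine ⟨by omega, ?_⟩
            left
            have : Lb (3 * g) i (l + 2 * (i + 1) - 2 * (2 * (3 * (g:ℤ)) + 1) - 1) = l := by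
              unfold Lb
              have e : l + 2 * (i + 1) - 2 * (2 * (3 * (g:ℤ)) + 1) - 1 + 1 - 2 * (i + 1) =
                l - (2 * (3 * (g:ℤ)) + 1) - (2 * (3 * (g:ℤ)) + 1) := by ring
              rw [e, Int.sub_emod_right, Int.sub_emod_right]
              exact Int.emod_eq_of_lt hl.1.1 hl.1.2
            rw [this]; exact hl.2
      · intro x hx y hy hxy
        have hx := (Finset.mem_coe.1 hx)
        have hy := (Finset.mem_coe.1 hy)
        rw [mem_CC] at hx hy
        push_cast at hx hy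
        have hxC := hx.2
        have hyC := hy.2
        unfold inC inV at hxC hyC
        dsimp only at hxy
        rcases em_pos (x := x + 2 * (i + 1)) (N := 2 * (3 * (g:ℤ)) + 1) (by omega) (by omega) with
          h | h | h <;>
        rcases em_pos (x := y + 2 * (i + 1)) (N := 2 * (3 * (g:ℤ)) + 1) (by omega) (by omega) with
          h' | h' | h' <;>
        · split_ifs at hxy <;> omega
  · intro j hj0 hj1
    push_cast at hj1
    apply line_le (p := 3 * g) hg _ (fun i => i) (fun _ => j) (fun _ => j + 1)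
    · intro i hi
      simp only [mem_filter, mem_Ico] at hi
      push_cast at hi ⊢
      exact ⟨hi.1, ⟨hj0, hj1⟩, hi.2⟩
    · intro i hi hn
      simp only [mem_filter, mem_Ico] at hi
      have := (SF_iff.1 hi.2).resolve_left hn
      push_cast at this ⊢
      unfold inC inV at *
      omega
    · intro x hx y hy _ _ hl
      simp only [mem_filter, mem_Ico] at hx hy
      push_cast at hx hy hl
      obtain ⟨t, ht, e, _⟩ := Lb_cases hx.1.1 hx.1.2 hj0 hj1
      obtain ⟨t', ht', e', _⟩ := Lb_cases hy.1.1 hy.1.2 hj0 hj1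
      rw [e, e'] at hl
      rcases ht with rfl | rfl | rfl <;> rcases ht' with rfl | rfl | rfl <;> omega
    · intro x hx y hy h h' _
      have a := h.2
      have b := h'.2
      omega
    · intro x hx y hy h h' hl
      simp only [mem_filter, mem_Ico] at hx hy
      push_cast at hx hy hl h h'
      obtain ⟨t, ht, e, _⟩ := Lb_cases hx.1.1 hx.1.2 hj0 hj1
      rw [e] at hl
      rcases ht with rfl | rfl | rfl <;> omega
  · intro k
    apply line_le (p := 3 * g) hg _ (fun i => i) (fun i => k - i) (fun _ => 0)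
    · intro i hi
      simp only [mem_filter, mem_Ico] at hi
      push_cast at hi ⊢
      exact ⟨hi.1, hi.2.1, hi.2.2⟩
    · intro i hi hn
      unfold inC
      have hg0 : (0:ℤ) ≤ g := Int.natCast_nonneg g
      refine ⟨⟨le_refl _, ?_⟩, Or.inl rfl⟩
      push_cast
      omega
    · intro x hx y hy _ _ hl
      simp only [mem_filter, mem_Ico] at hx hy
      push_cast at hx hy hl
      obtain ⟨t, ht, e, _⟩ := Lb_cases hx.1.1 hx.1.2 hx.2.1.1 hx.2.1.2
      obtain ⟨t', ht', e', _⟩ := Lb_cases hy.1.1 hy.1.2 hy.2.1.1 hy.2.1.2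
      rw [e, e'] at hl
      rcases ht with rfl | rfl | rfl <;> rcases ht' with rfl | rfl | rfl <;> omega
    · intro x hx y hy h h' _
      have a := h.2
      have b := h'.2
      omega
    · intro x hx y hy h h' hl
      simp only [mem_filter, mem_Ico] at hx hy
      push_cast at hx hy hl h h'
      obtain ⟨t, ht, e, _⟩ := Lb_cases hx.1.1 hx.1.2 hx.2.1.1 hx.2.1.2
      rw [e] at hl
      rcases ht with rfl | rfl | rfl <;> omega
  · intro k
    apply line_le (p := 3 * g) hg _ (fun i => i) (fun i => i - k) (fun i => 2 * (i - 3 * g))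
    · intro i hi
      simp only [mem_filter, mem_Ico] at hi
      push_cast at hi ⊢
      exact ⟨hi.1, hi.2.1, hi.2.2⟩
    · intro i hi hn
      simp only [mem_filter, mem_Ico] at hi
      have := (SF_iff.1 hi.2.2).resolve_left hn
      push_cast at this ⊢
      unfold inC inV at *
      omega
    · intro x hx y hy _ _ hl
      simp only [mem_filter, mem_Ico] at hx hy
      push_cast at hx hy hl
      obtain ⟨t, ht, e, _⟩ := Lb_cases hx.1.1 hx.1.2 hx.2.1.1 hx.2.1.2
      obtain ⟨t', ht', e', _⟩ := Lb_cases hy.1.1 hy.1.2 hy.2.1.1 hy.2.1.2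
      rw [e, e'] at hl
      rcases ht with rfl | rfl | rfl <;> rcases ht' with rfl | rfl | rfl <;> omega
    · intro x hx y hy h h' _
      have a := h.2
      have b := h'.2
      omega
    · intro x hx y hy h h' hl
      simp only [mem_filter, mem_Ico] at hx hy
      push_cast at hx hy hl h h'
      obtain ⟨t, ht, e, _⟩ := Lb_cases hx.1.1 hx.1.2 hx.2.1.1 hx.2.1.2
      rw [e] at hl
      have h4 := h'.1
      unfold inV at h4
      rcases ht with rfl | rfl | rfl <;> omega

theorem ex_six {n c : ℕ} (h6 : n % 6 = 0) (hc : c % 2 = 1) (hcn : 2 * c ≤ n) : Ex n c := by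
  obtain ⟨g, rfl⟩ : ∃ g, n = 2 * (3 * g) := ⟨n / 6, by omega⟩
  obtain ⟨r, rfl⟩ : ∃ r, c = 2 * r + 1 := ⟨c / 2, by omega⟩
  exact (six_good (g := g) (r := r) (by omega)).ex

end Pool.Agent.Lib.MP_712a2d_co
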