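import Mathlib
import Pool.Agent.Lib.MP_712a2d_co.Block

namespace Pool.Agent.Lib.MP_712a2d_co

open Finset

/-- cell `(i,j)` of the board described by the list of row masks -/
def bit (rows : List ℕ) (i j : ℕ) : Bool := (rows.getD i 0).testBit j

/-- boolean checker for an `(n,c)`-placement given by row masks -/
def chk (n c : ℕ) (rows : List ℕ) : Bool :=
  (List.range n).all (fun i => (List.range n).countP (fun j => bit rows i j) == c) &&
  (List.range n).all (fun j => Nat.ble ((List.range n).countP (fun i => bit rows i j)) c) &&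
  (List.range (2 * n)).all (fun k => Nat.ble ((List.range n).countP
    (fun i => Nat.ble i k && Nat.blt (k - i) n && bit rows i (k - i))) c) &&
  (List.range (2 * n)).all (fun e => Nat.ble ((List.range n).countP
    (fun i => Nat.ble e (i + n) && Nat.blt (i + n - e) n && bit rows i (i + n - e))) c)

theorem card_filter_eq_countP (n : ℕ) (P : ℤ → Prop) [DecidablePred P] (q : ℕ → Bool)
    (h : ∀ i < n, (P (i:ℤ) ↔ q i = true)) :
    ((Ico (0:ℤ) n).filter P).card = (List.range n).countP q := by
  have h1 : ((Finset.range n).filter (fun i => q i = true)).card = (List.range n).countP q := by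
    clear h
    induction n with
    | zero => rfl
    | succ n ih =>
      rw [Finset.range_add_one, Finset.filter_insert, List.range_succ, List.countP_append, ← ih]
      by_cases hq : q n = true
      · simp [hq]
      · simp [hq]
  rw [← h1]
  refine Finset.card_bij' (fun (i:ℤ) _ => i.toNat) (fun (i:ℕ) _ => (i:ℤ)) ?_ ?_ ?_ ?_
  · intro i hi
    simp only [mem_filter, mem_Ico, mem_range] at hi ⊢
    have e : ((i.toNat : ℕ) : ℤ) = i := Int.toNat_of_nonneg hi.1.1
    refine ⟨by omega, (h _ (by omega)).1 ?_⟩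
    rw [e]; exact hi.2
  · intro i hi
    simp only [mem_filter, mem_Ico, mem_range] at hi ⊢
    exact ⟨by omega, (h _ hi.1).2 hi.2⟩
  · intro i hi
    simp only [mem_filter, mem_Ico] at hi
    exact Int.toNat_of_nonneg hi.1.1
  · intro i _
    exact Int.toNat_natCast i

theorem ex_of_chk (n c : ℕ) (rows : List ℕ) (h : chk n c rows = true) : Ex n c := by
  unfold chk at h
  simp only [Bool.and_eq_true, List.all_eq_true, List.mem_range, beq_iff_eq, Nat.ble_eq] at h
  obtain ⟨⟨⟨hr, hc⟩, hd⟩, ha⟩ := h
  have G : Good n c (fun i j => bit rows i.toNat j.toNat = true) := by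
    refine ⟨?_, ?_, ?_, ?_⟩
    · intro i hi0 hi1
      rw [← hr i.toNat (by omega)]
      apply card_filter_eq_countP
      intro j hj
      rw [Int.toNat_natCast]
    · intro j hj0 hj1
      refine le_trans (le_of_eq ?_) (hc j.toNat (by omega))
      apply card_filter_eq_countP
      intro i hi
      rw [Int.toNat_natCast]
    · intro k
      by_cases hk : 0 ≤ k ∧ k < 2 * n
      · refine le_trans (le_of_eq ?_) (hd k.toNat (by omega))
        apply card_filter_eq_countP
        intro i hi
        simp only [Bool.and_eq_true, Nat.ble_eq, Nat.blt_eq]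
        have e : (k - (i:ℤ)).toNat = k.toNat - i := by omega
        rw [Int.toNat_natCast, e]
        constructor
        · rintro ⟨h1, h2⟩; exact ⟨⟨by omega, by omega⟩, h2⟩
        · rintro ⟨h1, h2⟩; exact ⟨⟨by omega, by omega⟩, h2⟩
      · rw [Finset.card_eq_zero.2 (Finset.filter_eq_empty_iff.2 ?_)]
        · exact Nat.zero_le _
        · intro i hi h2
          simp only [mem_Ico] at hi
          omega
    · intro d
      by_cases hk : -(n:ℤ) ≤ d ∧ d < n
      · refine le_trans (le_of_eq ?_) (ha (d + n).toNat (by omega))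
        apply card_filter_eq_countP
        intro i hi
        simp only [Bool.and_eq_true, Nat.ble_eq, Nat.blt_eq]
        by_cases h0 : 0 ≤ (i:ℤ) - d
        · have e : ((i:ℤ) - d).toNat = i + n - (d + n).toNat := by omega
          rw [Int.toNat_natCast, e]
          constructor
          · rintro ⟨h1, h2⟩; exact ⟨⟨by omega, by omega⟩, h2⟩
          · rintro ⟨h1, h2⟩; exact ⟨⟨by omega, by omega⟩, h2⟩
        · constructor
          · rintro ⟨h1, h2⟩; omega
          · rintro ⟨h1, h2⟩; omega
      · rw [Finset.card_eq_zero.2 (Finset.filter_eq_empty_iff.2 ?_)]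
        · exact Nat.zero_le _
        · intro i hi h2
          simp only [mem_Ico] at hi
          omega
  exact G.ex

theorem ex_4_1 : Ex 4 1 := ex_of_chk 4 1 [2, 8, 1, 4] (by decide)
theorem ex_4_3 : Ex 4 3 := ex_of_chk 4 3 [7, 14, 11, 13] (by decide)
theorem ex_6_2 : Ex 6 2 := ex_of_chk 6 2 [3, 9, 48, 20, 6, 40] (by decide)
theorem ex_8_3 : Ex 8 3 := ex_of_chk 8 3 [168, 168, 19, 76, 81, 21, 194, 38] (by decide)
theorem ex_9_1 : Ex 9 1 := ex_of_chk 9 1 [2, 16, 64, 1, 4, 128, 32, 8, 256] (by decide)
theorem ex_9_2 : Ex 9 2 := ex_of_chk 9 2 [129, 129, 20, 66, 288, 6, 272, 72, 40] (by decide)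
theorem ex_9_3 : Ex 9 3 := ex_of_chk 9 3 [336, 133, 386, 52, 388, 35, 74, 25, 104] (by decide)
theorem ex_9_4 : Ex 9 4 := ex_of_chk 9 4 [263, 153, 156, 389, 329, 354, 226, 60, 114] (by decide)
theorem ex_10_5 : Ex 10 5 := ex_of_chk 10 5 [229, 242, 286, 397, 229, 968, 566, 794, 563, 841] (by decide)
theorem ex_15_3 : Ex 15 3 := ex_of_chk 15 3 [1057, 4228, 16912, 2114, 8456, 1057, 4228, 16912, 2114, 8456, 1057, 4228, 16912, 2114, 8456] (by decide)
theorem ex_15_4 : Ex 15 4 := ex_of_chk 15 4 [17952, 6336, 25344, 3168, 12672, 17425, 6150, 24600, 3075, 12300, 561, 198, 792, 99, 396] (by decide)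
theorem ex_15_5 : Ex 15 5 := ex_of_chk 15 5 [17968, 6338, 25352, 3169, 12676, 17937, 6214, 24856, 3107, 12428, 16945, 2246, 8984, 1123, 4492] (by decide)
theorem ex_15_6 : Ex 15 6 := ex_of_chk 15 6 [17969, 6342, 25368, 3171, 12684, 17969, 6342, 25368, 3171, 12684, 17969, 6342, 25368, 3171, 12684] (by decide)
theorem ex_15_7 : Ex 15 7 := ex_of_chk 15 7 [26408, 7393, 29572, 20080, 14786, 25881, 7207, 28828, 19987, 14414, 9017, 1255, 5020, 17011, 2510] (by decide)
theorem ex_21_9 : Ex 21 9 := ex_of_chk 21 9 [1601761, 115591, 462364, 1849456, 1106371, 231182, 924728, 1601761, 115591, 462364, 1849456, 1106371, 231182, 924728, 1601761, 115591, 462364, 1849456, 1106371, 231182, 924728] (by decide)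
theorem ex_21_10 : Ex 21 10 := ex_of_chk 21 10 [1865921, 1172358, 495384, 1981536, 1634691, 247692, 990768, 1859825, 1164103, 494622, 1978488, 1622499, 247311, 989244, 1079537, 107463, 397086, 1588344, 61923, 198543, 794172] (by decide)

end Pool.Agent.Lib.MP_712a2d_co
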