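import Mathlib
import Pool.Agent.Lib.MP_712a2d_co.Labels
import Pool.Agent.Lib.MP_712a2d_co.Double
import Pool.Agent.Lib.MP_712a2d_co.Block
import Pool.Agent.Lib.MP_712a2d_co.Six
import Pool.Agent.Lib.MP_712a2d_co.Small

namespace Pool.Agent.Lib.MP_712a2d_co

open Finset

theorem ex_large {n c : ℕ} (hn : 4 ≤ n) (hc : c ≤ n) (h2 : n ≤ 2 * c)
    (hodd : n = 2 * c → c % 2 = 0) (h56 : n ≠ 5)
    (ih : ∀ m, 4 ≤ m → m < n → Ex m 1) : Ex n c := by
  by_cases hpar : c % 2 = 0
  · -- block with an empty centre
    have := ex_block (m := n - c) (e := 0) (w := c / 2) (by omega) (by omega) (by omega)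
      (ex_zero _)
    have e1 : n - c + 2 * (c / 2) = n := by omega
    have e2 : 2 * (c / 2) + 0 = c := by omega
    rwa [e1, e2] at this
  · have hd : n - c + 1 ≤ c := by
      have : n ≠ 2 * c := fun h => hpar (hodd h)
      omega
    rcases Nat.lt_or_ge (n - c) 3 with h3 | h3
    · have : n - c = 0 ∨ n - c = 1 ∨ n - c = 2 := by omega
      rcases this with h | h | h
      · have h1 : Ex 1 1 := ex_coprime 1 1 (by norm_num) (by norm_num) (by norm_num)
        have := ex_block (m := 1) (e := 1) (w := (n - 1) / 2) (by omega) (by omega) (by omega) h1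
        have e1 : 1 + 2 * ((n - 1) / 2) = n := by omega
        have e2 : 2 * ((n - 1) / 2) + 1 = c := by omega
        rwa [e1, e2] at this
      · by_cases h4 : n = 4
        · have : c = 3 := by omega
          subst this; subst h4
          exact ex_4_3
        · have := ex_block (m := 4) (e := 3) (w := (n - 4) / 2) (by omega) (by omega) (by omega)
            ex_4_3
          have e1 : 4 + 2 * ((n - 4) / 2) = n := by omega
          have e2 : 2 * ((n - 4) / 2) + 3 = c := by omega
          rwa [e1, e2] at this
      · have h1 : Ex 5 3 := ex_coprime 5 3 (by norm_num) (by norm_num) (by norm_num)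
        have := ex_block (m := 5) (e := 3) (w := (n - 5) / 2) (by omega) (by omega) (by omega) h1
        have e1 : 5 + 2 * ((n - 5) / 2) = n := by omega
        have e2 : 2 * ((n - 5) / 2) + 3 = c := by omega
        rwa [e1, e2] at this
    · have h1 : Ex (n - c + 1) 1 := ih _ (by omega) (by omega)
      have := ex_block (m := n - c + 1) (e := 1) (w := (c - 1) / 2) (by omega) (by omega)
        (by omega) h1
      have e1 : n - c + 1 + 2 * ((c - 1) / 2) = n := by omega
      have e2 : 2 * ((c - 1) / 2) + 1 = c := by omega
      rwa [e1, e2] at this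

theorem ex_all (n : ℕ) : ∀ c : ℕ, 4 ≤ n → c ≤ n → Ex n c := by
  induction n using Nat.strong_induction_on with
  | _ n ih =>
    intro c hn hc
    by_cases hc0 : c = 0
    · subst hc0; exact ex_zero n
    by_cases hcop : n % 2 = 1 ∧ n % 3 ≠ 0
    · exact ex_coprime n c hcop.1 hcop.2 hc
    by_cases hlarge : n ≤ 2 * c ∧ (n = 2 * c → c % 2 = 0)
    · exact ex_large hn hc hlarge.1 hlarge.2 (by omega) (fun m h4 hm => ih m hm 1 h4 (by omega))
    have h2c : 2 * c ≤ n := by
      by_contra hcon
      exact hlarge ⟨by omega, by omega⟩
    by_cases heven : n % 2 = 0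
    · by_cases hce : c % 2 = 0
      · -- doubling
        have hne : n ≠ 2 * c := by
          intro h
          exact hlarge ⟨by omega, fun _ => hce⟩
        by_cases h8 : 8 ≤ n
        · have h1 : Ex (n / 2) (c / 2) := ih (n / 2) (by omega) (c / 2) (by omega) (by omega)
          have := ex_double h1
          have e1 : 2 * (n / 2) = n := by omega
          have e2 : 2 * (c / 2) = c := by omega
          rwa [e1, e2] at this
        · have h6 : n = 6 ∧ c = 2 := by omega
          rw [h6.1, h6.2]
          exact ex_6_2
      · by_cases h3 : n % 3 = 0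
        · exact ex_six (by omega) (by omega) h2c
        · by_cases h7 : c + 7 ≤ n
          · exact ex_two n c heven h3 h7
          · have : (n = 4 ∧ c = 1) ∨ (n = 8 ∧ c = 3) ∨ (n = 10 ∧ c = 5) := by
              have h0 : n = 4 ∨ n = 6 ∨ n = 8 ∨ n = 10 ∨ n = 12 := by omega
              rcases h0 with rfl | rfl | rfl | rfl | rfl <;> omega
            rcases this with ⟨rfl, rfl⟩ | ⟨rfl, rfl⟩ | ⟨rfl, rfl⟩
            · exact ex_4_1
            · exact ex_8_3
            · exact ex_10_5
    · have h3 : n % 3 = 0 := by
        by_contra h3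
        exact hcop ⟨by omega, h3⟩
      by_cases h13 : c + 13 ≤ n
      · exact ex_three n c (by omega) h3 h13
      · have h21 : n = 9 ∨ n = 15 ∨ n = 21 := by omega
        rcases h21 with rfl | rfl | rfl
        · have : c = 1 ∨ c = 2 ∨ c = 3 ∨ c = 4 := by omega
          rcases this with rfl | rfl | rfl | rfl
          · exact ex_9_1
          · exact ex_9_2
          · exact ex_9_3
          · exact ex_9_4
        · have : c = 3 ∨ c = 4 ∨ c = 5 ∨ c = 6 ∨ c = 7 := by omega
          rcases this with rfl | rfl | rfl | rfl | rfl
          · exact ex_15_3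
          · exact ex_15_4
          · exact ex_15_5
          · exact ex_15_6
          · exact ex_15_7
        · have : c = 9 ∨ c = 10 := by omega
          rcases this with rfl | rfl
          · exact ex_21_9
          · exact ex_21_10

end Pool.Agent.Lib.MP_712a2d_co
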